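import Pool.Agent.helper4.QX.SpecD
import Pool.Agent.helper62.QU.All

/-!
# Row qd:BMP: the bump family
-/

set_option autoImplicit false

open scoped MatrixGroups ContDiff Topology UpperHalfPlane
open UpperHalfPlane MeasureTheory ProbabilityTheory Filter Set Polynomial
open Pool.Agent.QU Pool.Agent.RP

namespace Pool.Agent.QX

/-- a bump function -/
private lemma BMP_bump (c₀ : ℝ) (hc₀ : 0 < c₀) : ∃ κ₁ : ℝ → ℝ, ContDiff ℝ ∞ κ₁ ∧ (∀ t, 0 ≤ κ₁ t) ∧
    (∀ t, 1 ≤ t → κ₁ t = 0) ∧ (∀ t, 0 ≤ t → t < 1 → 0 < κ₁ t) ∧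
    ∫ t in (0 : ℝ)..1, κ₁ t = 1 / c₀ := by
  let b : ContDiffBump (0 : ℝ) := ⟨1 / 2, 1, by norm_num, by norm_num⟩
  have hb0 : ∀ t, 0 ≤ b t := fun t => b.nonneg
  have hb1 : ∀ t, 1 ≤ t → b t = 0 := by
    intro t ht
    apply b.zero_of_le_dist
    rw [Real.dist_eq, sub_zero]
    exact ht.trans (le_abs_self t)
  have hb2 : ∀ t, 0 ≤ t → t < 1 → 0 < b t := by
    intro t ht ht1
    apply b.pos_of_mem_ball
    rw [Metric.mem_ball, Real.dist_eq, sub_zero, abs_of_nonneg ht]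
    exact ht1
  have hbc : Continuous b := b.continuous
  obtain ⟨I, hI⟩ : ∃ I : ℝ, I = ∫ t in (0 : ℝ)..1, b t := ⟨_, rfl⟩
  have hI0 : 0 < I := by
    rw [hI]
    refine intervalIntegral.intervalIntegral_pos_of_pos_on (hbc.intervalIntegrable _ _) ?_ one_pos
    intro t ht
    exact hb2 t ht.1.le ht.2
  have hcI : 0 < c₀ * I := mul_pos hc₀ hI0
  refine ⟨fun t => b t / (c₀ * I), b.contDiff.div_const _, fun t => div_nonneg (hb0 t) hcI.le,
    fun t ht => by simp only [hb1 t ht, zero_div], fun t ht ht1 => div_pos (hb2 t ht ht1) hcI, ?_⟩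
  rw [intervalIntegral.integral_div, ← hI]
  field_simp

private theorem BMP_fam (h1 : MAS_stmt) (h2 : ROD_stmt) : ∃ κ₁ : ℝ → ℝ, ContDiff ℝ ∞ κ₁ ∧
    (∀ t, 0 ≤ κ₁ t) ∧ (∀ t, 1 ≤ t → κ₁ t = 0) ∧ Fam (fm κ₁) := by
  obtain ⟨c₀, hc₀, hmas⟩ := h1
  obtain ⟨κ₁, hs, hn, hz, hp, hi⟩ := BMP_bump c₀ hc₀
  refine ⟨κ₁, hs, hn, hz, ?_⟩
  have hc : Continuous κ₁ := hs.continuous
  have hint : ∀ a b, IntervalIntegrable κ₁ volume a b := fun a b => hc.intervalIntegrable a b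
  obtain ⟨Q, hQ⟩ : ∃ Q : ℝ → ℝ, ∀ t, Q t = ∫ r in (0 : ℝ)..t, κ₁ r := ⟨_, fun t => rfl⟩
  have hQmono : ∀ a b, 0 ≤ a → a ≤ b → Q a ≤ Q b := by
    intro a b _ hab
    rw [hQ, hQ, ← intervalIntegral.integral_add_adjacent_intervals (hint 0 a) (hint a b)]
    have := intervalIntegral.integral_nonneg (f := κ₁) (μ := volume) hab (fun u _ => hn u)
    linarith
  have hQ0 : Q 0 = 0 := by rw [hQ, intervalIntegral.integral_same]
  have hQ1 : Q 1 = 1 / c₀ := by rw [hQ, hi]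
  have hQbig : ∀ t, 1 ≤ t → Q t = 1 / c₀ := by
    intro t ht
    rw [hQ, ← intervalIntegral.integral_add_adjacent_intervals (hint 0 1) (hint 1 t), hi]
    have h3 : ∫ r in (1 : ℝ)..t, κ₁ r = ∫ r in (1 : ℝ)..t, (0 : ℝ) := by
      refine intervalIntegral.integral_congr fun r hr => ?_
      rw [uIcc_of_le ht] at hr
      exact hz r hr.1
    rw [h3, intervalIntegral.integral_zero, add_zero]
  have hQle : ∀ t, 0 ≤ t → Q t ≤ 1 / c₀ := by
    intro t ht
    rcases le_total t 1 with h | h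
    · rw [← hQ1]; exact hQmono t 1 ht h
    · exact (hQbig t h).le
  have hQnn : ∀ t, 0 ≤ t → 0 ≤ Q t := by
    intro t ht
    rw [← hQ0]
    exact hQmono 0 t le_rfl ht
  obtain ⟨fam, hfam'⟩ : ∃ fam : ℝ → ℝ → ℝ, fam = fm κ₁ :=
    ⟨_, rfl⟩
  have hfam : ∀ η t, fam η t = κ₁ (t / η) / η := fun η t => by rw [hfam']; rfl
  rw [← hfam']
  have hfe : ∀ η, fam η = fun t => κ₁ (t / η) / η := fun η => funext (hfam η)
  have hsm : ∀ η, ContDiff ℝ ∞ (fam η) := by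
    intro η
    rw [hfe]
    exact (hs.comp (contDiff_id.div_const η)).div_const η
  have hnn : ∀ η, 0 < η → ∀ t, 0 ≤ fam η t := by
    intro η hη t
    rw [hfam]
    exact div_nonneg (hn _) hη.le
  have hsup : ∀ η, 0 < η → ∀ t, η ≤ t → fam η t = 0 := by
    intro η hη t ht
    rw [hfam, hz _ ((one_le_div hη).2 ht), zero_div]
  have hfint : ∀ η, 0 < η → ∀ t, ∫ r in (0 : ℝ)..t, fam η r = Q (t / η) := by
    intro η hη t
    rw [hfe, intervalIntegral.integral_div, intervalIntegral.integral_comp_div κ₁ hη.ne',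
      zero_div, ← hQ, smul_eq_mul, mul_div_assoc, mul_comm, div_mul_cancel₀ _ hη.ne']
  refine ⟨fun η hη => ⟨hsm η, η, hsup η hη⟩, hnn, hsup, ?_, ?_, ?_⟩
  · intro η hη t ht htη
    rw [hfam]
    exact div_pos (hp _ (div_nonneg ht hη.le) ((div_lt_one hη).2 htη)) hη
  · intro η hη z
    rw [hmas (fam η) η (hsm η) hη (hsup η hη) z, hfint η hη η, div_self hη.ne', hQ1]
    field_simp
  · intro η η' hη' hle
    have hη : 0 < η := lt_of_lt_of_le hη' hle
    have hfi : ∀ η t, IntervalIntegrable (fam η) volume 0 t :=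
      fun η t => (hsm η).continuous.intervalIntegrable _ _
    have hθ : ∀ t, ∫ r in (0 : ℝ)..t, (fam η r - fam η' r) = Q (t / η) - Q (t / η') := by
      intro t
      rw [intervalIntegral.integral_sub (hfi η t) (hfi η' t), hfint η hη, hfint η' hη']
    obtain ⟨ψ, hψ, hψs, hψL, hψc⟩ := h2 (fun t => fam η t - fam η' t) η
      ((hsm η).sub (hsm η')) hη (fun t ht => by
        show fam η t - fam η' t = 0
        rw [hsup η hη t ht, hsup η' hη' t (hle.trans ht), sub_zero]) (by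
        rw [hθ, div_self hη.ne', hQ1, hQbig _ ((one_le_div hη').2 hle), sub_self])
    obtain ⟨h3, h4⟩ := hψc (1 / c₀) (fun t ht => by
      rw [hθ]
      have ha : 0 ≤ t / η := div_nonneg ht hη.le
      have hb : 0 ≤ t / η' := div_nonneg ht hη'.le
      have hab : t / η ≤ t / η' := div_le_div_of_nonneg_left ht hη' hle
      have := hQmono _ _ ha hab
      have := hQle _ hb
      have := hQnn _ ha
      constructor <;> linarith)
    refine ⟨ψ, hψ, h3, fun t ht => ?_, fun z => ?_⟩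
    · rw [hψL t ht]
      ring
    · rw [hmas ψ η hψ.smooth hη hψs z]
      calc c₀ * ∫ t in (0 : ℝ)..η, ψ t ≤ c₀ * (1 / c₀ * η / 2) :=
            mul_le_mul_of_nonneg_left h4 hc₀.le
        _ = η / 2 := by field_simp

/-- the two parts of the radial Laplace operator -/
private noncomputable def BMP_A (F : ℝ → ℝ) (x : ℝ) : ℝ := -(2 * x * deriv (deriv F) x + 2 * deriv F x)

private noncomputable def BMP_B (F : ℝ → ℝ) (x : ℝ) : ℝ := -(x ^ 2 * deriv (deriv F) x + 2 * x * deriv F x)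

/-- smooth, zero on `[1, ∞)` -/
private def BMP_P (F : ℝ → ℝ) : Prop := ContDiff ℝ ∞ F ∧ ∀ x, 1 ≤ x → F x = 0

private theorem BMP_dsm {F : ℝ → ℝ} (hF : ContDiff ℝ ∞ F) : ContDiff ℝ ∞ (deriv F) := by
  exact (contDiff_infty_iff_deriv.mp hF).2

private theorem BMP_Pd {F : ℝ → ℝ} (hF : BMP_P F) : BMP_P (deriv F) := by
  refine ⟨BMP_dsm hF.1, fun x hx => ?_⟩
  have h1 : EqOn (deriv F) 0 (Ioi 1) := by
    intro y hy
    have h2 : F =ᶠ[𝓝 y] fun _ => 0 := by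
      filter_upwards [Ioi_mem_nhds (show (1 : ℝ) < y from hy)] with u hu
      exact hF.2 u (le_of_lt hu)
    rw [h2.deriv_eq]
    simp
  have h3 := h1.closure (BMP_dsm hF.1).continuous continuous_zero
  rw [closure_Ioi] at h3
  exact h3 hx

private theorem BMP_PA {F : ℝ → ℝ} (hF : BMP_P F) : BMP_P (BMP_A F) := by
  have h1 := BMP_Pd hF
  have h2 := BMP_Pd h1
  refine ⟨?_, fun x hx => ?_⟩
  · unfold BMP_A
    exact (((contDiff_const.mul contDiff_id).mul h2.1).add (contDiff_const.mul h1.1)).neg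
  · unfold BMP_A
    rw [h2.2 x hx, h1.2 x hx]
    ring

private theorem BMP_PB {F : ℝ → ℝ} (hF : BMP_P F) : BMP_P (BMP_B F) := by
  have h1 := BMP_Pd hF
  have h2 := BMP_Pd h1
  refine ⟨?_, fun x hx => ?_⟩
  · unfold BMP_B
    exact (((contDiff_id.pow 2).mul h2.1).add ((contDiff_const.mul contDiff_id).mul h1.1)).neg
  · unfold BMP_B
    rw [h2.2 x hx, h1.2 x hx]
    ring

private theorem BMP_lin {F G : ℝ → ℝ} (hF : ContDiff ℝ ∞ F) (hG : ContDiff ℝ ∞ G) (e : ℝ) :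
    deriv (fun x => F x + e * G x) = fun x => deriv F x + e * deriv G x := by
  funext x
  have h1 := (hF.differentiable (by simp)).differentiableAt (x := x)
  have h2 := (hG.differentiable (by simp)).differentiableAt (x := x)
  rw [deriv_fun_add h1 (h2.const_mul e), deriv_const_mul e h2]

private theorem BMP_LL {F : ℝ → ℝ} (hF : ContDiff ℝ ∞ F) (η c : ℝ) (hη : 0 < η) :
    LL (fun t => c * F (t / η)) = fun t => c / η * (BMP_A F (t / η) + η * BMP_B F (t / η)) := by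
  have hd : ∀ (G : ℝ → ℝ), ContDiff ℝ ∞ G → ∀ c : ℝ,
      deriv (fun t => c * G (t / η)) = fun t => c / η * deriv G (t / η) := by
    intro G hG c
    funext t
    have h1 : HasDerivAt (fun t : ℝ => t / η) (1 / η) t := (hasDerivAt_id t).div_const η
    have h2 := ((hG.differentiable (by simp)).differentiableAt (x := t / η)).hasDerivAt
    have h3 := (h2.comp t h1).const_mul c
    have h4 : deriv (fun t => c * G (t / η)) t = c * (deriv G (t / η) * (1 / η)) := h3.deriv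
    rw [h4]
    ring
  funext t
  unfold LL
  rw [hd F hF c, hd (deriv F) (BMP_dsm hF) (c / η)]
  unfold BMP_A BMP_B
  field_simp
  ring

private theorem BMP_bd {F χ : ℝ → ℝ} (hF : BMP_P F) (hχ0 : ∀ t, 0 ≤ χ t)
    (hχ1 : ∀ t, 0 ≤ t → t ≤ 1 → χ t = 1) : ∃ M : ℝ, 0 ≤ M ∧ ∀ x, 0 ≤ x → |F x| ≤ M * χ x := by
  obtain ⟨M, hM⟩ := (isCompact_Icc (a := (0 : ℝ)) (b := 1)).exists_bound_of_continuousOn
    hF.1.continuous.continuousOn
  refine ⟨max M 0, le_max_right _ _, fun x hx => ?_⟩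
  rcases le_total x 1 with h | h
  · rw [hχ1 x hx h, mul_one]
    exact (hM x ⟨hx, h⟩).trans (le_max_left _ _)
  · rw [hF.2 x h, abs_zero]
    exact mul_nonneg (le_max_right _ _) (hχ0 x)

private theorem BMP_tt (z w : ℍ) : 0 ≤ tt z w := by
  unfold tt
  have h1 := z.im_pos
  have h2 := w.im_pos
  positivity

private theorem BMP_core (h1 : MAS_stmt) (h2 : ROD_stmt) : BMP_stmt := by
  obtain ⟨κ₁, hs, hn, hz, hfam⟩ := BMP_fam h1 h2
  obtain ⟨c₀, hc₀, hmas⟩ := h1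
  -- a smooth majorant
  let b : ContDiffBump (0 : ℝ) := ⟨1, 2, by norm_num, by norm_num⟩
  obtain ⟨χ, hχ⟩ : ∃ χ : ℝ → ℝ, χ = fun t => b t := ⟨_, rfl⟩
  have hχs : ContDiff ℝ ∞ χ := by
    rw [hχ]
    exact b.contDiff
  have hχ0 : ∀ t, 0 ≤ χ t := fun t => by
    rw [hχ]
    exact b.nonneg
  have hχ1 : ∀ t, 0 ≤ t → t ≤ 1 → χ t = 1 := by
    intro t ht ht1
    rw [hχ]
    apply b.one_of_mem_closedBall
    rw [Metric.mem_closedBall, Real.dist_eq, sub_zero, abs_of_nonneg ht]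
    exact ht1
  have hχ2 : ∀ t, 2 ≤ t → χ t = 0 := by
    intro t ht
    rw [hχ]
    apply b.zero_of_le_dist
    rw [Real.dist_eq, sub_zero]
    exact ht.trans (le_abs_self t)
  obtain ⟨I, hI⟩ : ∃ I : ℝ, I = ∫ t in (0 : ℝ)..2, χ t := ⟨_, rfl⟩
  have hI0 : 0 < I := by
    rw [hI]
    refine intervalIntegral.intervalIntegral_pos_of_pos_on (hχs.continuous.intervalIntegrable _ _) ?_
      two_pos
    intro t ht
    rw [hχ]
    apply b.pos_of_mem_ball
    rw [Metric.mem_ball, Real.dist_eq, sub_zero, abs_of_nonneg ht.1.le]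
    exact ht.2
  have hmass : ∀ (η : ℝ), 0 < η → ∀ z : ℍ, ∫ w : ℍ, χ (tt z w / η) = c₀ * (η * I) := by
    intro η hη z
    have h3 := hmas (fun t => χ (t / η)) (2 * η) (hχs.comp (contDiff_id.div_const η)) (by positivity)
      (fun t ht => hχ2 _ ((le_div_iff₀ hη).mpr ht)) z
    rw [h3, intervalIntegral.integral_comp_div χ hη.ne', zero_div, mul_div_assoc, div_self hη.ne',
      mul_one, ← hI, smul_eq_mul]
  have hintg : ∀ (η : ℝ), 0 < η → ∀ z : ℍ, Integrable (fun w : ℍ => χ (tt z w / η)) := by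
    intro η hη z
    by_contra h3
    have h4 := integral_undef h3
    rw [hmass η hη z] at h4
    have : 0 < c₀ * (η * I) := by positivity
    exact this.ne' h4
  have hkey : ∀ (g : ℝ → ℝ) (c η : ℝ), 0 < η → (∀ t, 0 ≤ t → |g t| ≤ c * χ (t / η)) →
      ∀ z : ℍ, ∫ w : ℍ, |g (tt z w)| ≤ c * (c₀ * (η * I)) := by
    intro g c η hη hg z
    rw [← hmass η hη z, ← integral_const_mul]
    exact integral_mono_of_nonneg (Eventually.of_forall fun w => abs_nonneg _)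
      ((hintg η hη z).const_mul c) (Eventually.of_forall fun w => hg _ (BMP_tt z w))
  have hP : BMP_P κ₁ := ⟨hs, hz⟩
  obtain ⟨MA, hMA0, hMA⟩ := BMP_bd (BMP_PA hP) hχ0 hχ1
  obtain ⟨MB, hMB0, hMB⟩ := BMP_bd (BMP_PB hP) hχ0 hχ1
  obtain ⟨M1, hM10, hM1⟩ := BMP_bd (BMP_PA (BMP_PA hP)) hχ0 hχ1
  obtain ⟨M2, hM20, hM2⟩ := BMP_bd (BMP_PA (BMP_PB hP)) hχ0 hχ1
  obtain ⟨M3, hM30, hM3⟩ := BMP_bd (BMP_PB (BMP_PA hP)) hχ0 hχ1
  obtain ⟨M4, hM40, hM4⟩ := BMP_bd (BMP_PB (BMP_PB hP)) hχ0 hχ1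
  have hL1 : ∀ η, 0 < η → LL (fm κ₁ η) =
      fun t => 1 / η / η * (BMP_A κ₁ (t / η) + η * BMP_B κ₁ (t / η)) := by
    intro η hη
    rw [← BMP_LL hs η (1 / η) hη]
    congr 1
    funext t
    unfold fm
    ring
  have hL2 : ∀ η, 0 < η → LL (LL (fm κ₁ η)) =
      fun t => 1 / η / η / η * (BMP_A (fun x => BMP_A κ₁ x + η * BMP_B κ₁ x) (t / η) +
        η * BMP_B (fun x => BMP_A κ₁ x + η * BMP_B κ₁ x) (t / η)) := by
    intro η hη
    rw [hL1 η hη]
    exact BMP_LL (F := fun x => BMP_A κ₁ x + η * BMP_B κ₁ x)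
      ((BMP_PA hP).1.add (contDiff_const.mul (BMP_PB hP).1)) η (1 / η / η) hη
  have hd1 : ∀ η, deriv (fun x => BMP_A κ₁ x + η * BMP_B κ₁ x) =
      fun x => deriv (BMP_A κ₁) x + η * deriv (BMP_B κ₁) x := fun η =>
    BMP_lin (BMP_PA hP).1 (BMP_PB hP).1 η
  have hd2 : ∀ η, deriv (deriv (fun x => BMP_A κ₁ x + η * BMP_B κ₁ x)) =
      fun x => deriv (deriv (BMP_A κ₁)) x + η * deriv (deriv (BMP_B κ₁)) x := fun η => by
    rw [hd1 η]
    exact BMP_lin (BMP_dsm (BMP_PA hP).1) (BMP_dsm (BMP_PB hP).1) η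
  have hAA : ∀ η x, BMP_A (fun x => BMP_A κ₁ x + η * BMP_B κ₁ x) x =
      BMP_A (BMP_A κ₁) x + η * BMP_A (BMP_B κ₁) x := by
    intro η x
    have e1 : ∀ F : ℝ → ℝ, BMP_A F x = -(2 * x * deriv (deriv F) x + 2 * deriv F x) := fun _ => rfl
    rw [e1 (fun x => BMP_A κ₁ x + η * BMP_B κ₁ x), e1 (BMP_A κ₁), e1 (BMP_B κ₁), hd2 η, hd1 η]
    ring
  have hBB : ∀ η x, BMP_B (fun x => BMP_A κ₁ x + η * BMP_B κ₁ x) x =
      BMP_B (BMP_A κ₁) x + η * BMP_B (BMP_B κ₁) x := by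
    intro η x
    have e1 : ∀ F : ℝ → ℝ, BMP_B F x = -(x ^ 2 * deriv (deriv F) x + 2 * x * deriv F x) := fun _ => rfl
    rw [e1 (fun x => BMP_A κ₁ x + η * BMP_B κ₁ x), e1 (BMP_A κ₁), e1 (BMP_B κ₁), hd2 η, hd1 η]
    ring
  obtain ⟨C1, hC1⟩ : ∃ C1 : ℝ, C1 = (MA + MB) * (c₀ * I) := ⟨_, rfl⟩
  obtain ⟨C2, hC2⟩ : ∃ C2 : ℝ, C2 = (M1 + M2 + (M3 + M4)) * (c₀ * I) := ⟨_, rfl⟩
  have hC10 : 0 ≤ C1 := by
    rw [hC1]
    positivity
  have hC20 : 0 ≤ C2 := by
    rw [hC2]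
    positivity
  refine ⟨κ₁, 1 + C1 + C2, ⟨by linarith, hs, hn, hz, hfam, ?_, ?_⟩⟩
  · intro η hη hη1 z
    have h3 := hkey (LL (fm κ₁ η)) (1 / η / η * (MA + MB)) η hη (fun t ht => by
      have hx : 0 ≤ t / η := div_nonneg ht hη.le
      have e1 := hMA (t / η) hx
      have e2 := hMB (t / η) hx
      have e3 := hχ0 (t / η)
      rw [hL1 η hη]
      simp only []
      rw [abs_mul, abs_of_nonneg (by positivity : (0 : ℝ) ≤ 1 / η / η), mul_assoc]
      refine mul_le_mul_of_nonneg_left ?_ (by positivity)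
      calc |BMP_A κ₁ (t / η) + η * BMP_B κ₁ (t / η)|
          ≤ |BMP_A κ₁ (t / η)| + |η * BMP_B κ₁ (t / η)| := abs_add_le _ _
        _ = |BMP_A κ₁ (t / η)| + η * |BMP_B κ₁ (t / η)| := by rw [abs_mul, abs_of_pos hη]
        _ ≤ |BMP_A κ₁ (t / η)| + 1 * |BMP_B κ₁ (t / η)| := by gcongr
        _ ≤ (MA + MB) * χ (t / η) := by linarith) z
    refine h3.trans ?_
    have e : 1 / η / η * (MA + MB) * (c₀ * (η * I)) = C1 / η := by
      rw [hC1]
      field_simp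
    rw [e]
    gcongr
    linarith
  · intro η hη hη1 z
    have h3 := hkey (LL (LL (fm κ₁ η))) (1 / η / η / η * (M1 + M2 + (M3 + M4))) η hη (fun t ht => by
      have hx : 0 ≤ t / η := div_nonneg ht hη.le
      have e1 := hM1 (t / η) hx
      have e2 := hM2 (t / η) hx
      have e3 := hM3 (t / η) hx
      have e4 := hM4 (t / η) hx
      have e5 := hχ0 (t / η)
      rw [hL2 η hη]
      simp only []
      rw [abs_mul, abs_of_nonneg (by positivity : (0 : ℝ) ≤ 1 / η / η / η), mul_assoc, hAA, hBB]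
      refine mul_le_mul_of_nonneg_left ?_ (by positivity)
      obtain ⟨p, hp⟩ : ∃ p : ℝ, p = BMP_A (BMP_A κ₁) (t / η) := ⟨_, rfl⟩
      obtain ⟨q, hq⟩ : ∃ q : ℝ, q = BMP_A (BMP_B κ₁) (t / η) := ⟨_, rfl⟩
      obtain ⟨r, hr⟩ : ∃ r : ℝ, r = BMP_B (BMP_A κ₁) (t / η) := ⟨_, rfl⟩
      obtain ⟨s, hs⟩ : ∃ s : ℝ, s = BMP_B (BMP_B κ₁) (t / η) := ⟨_, rfl⟩
      rw [← hp] at e1
      rw [← hq] at e2
      rw [← hr] at e3
      rw [← hs] at e4
      rw [← hp, ← hq, ← hr, ← hs]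
      have a1 : |p + η * q| ≤ |p| + |q| := by
        calc |p + η * q| ≤ |p| + |η * q| := abs_add_le _ _
          _ = |p| + η * |q| := by rw [abs_mul, abs_of_pos hη]
          _ ≤ |p| + 1 * |q| := by gcongr
          _ = |p| + |q| := by ring
      have a2 : |r + η * s| ≤ |r| + |s| := by
        calc |r + η * s| ≤ |r| + |η * s| := abs_add_le _ _
          _ = |r| + η * |s| := by rw [abs_mul, abs_of_pos hη]
          _ ≤ |r| + 1 * |s| := by gcongr
          _ = |r| + |s| := by ring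
      calc |p + η * q + η * (r + η * s)| ≤ |p + η * q| + |η * (r + η * s)| := abs_add_le _ _
        _ = |p + η * q| + η * |r + η * s| := by rw [abs_mul, abs_of_pos hη]
        _ ≤ |p + η * q| + 1 * |r + η * s| := by gcongr
        _ ≤ (M1 + M2 + (M3 + M4)) * χ (t / η) := by linarith) z
    refine h3.trans ?_
    have e : 1 / η / η / η * (M1 + M2 + (M3 + M4)) * (c₀ * (η * I)) = C2 / η ^ 2 := by
      rw [hC2]
      field_simp
    rw [e]
    gcongr
    linarith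

/-- **Row BMP**: the bump family. -/
theorem BMP : BMP_stmt := BMP_core A_MAS A_ROD

end Pool.Agent.QX
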