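import Pool.Agent.helper4.QX.SpecP

/-!
# Row qp:DSQ: the points `1/N²`
-/

set_option autoImplicit false

open scoped MatrixGroups ContDiff Topology UpperHalfPlane
open UpperHalfPlane MeasureTheory ProbabilityTheory Filter Set Polynomial
open Pool.Agent.QU Pool.Agent.RP

namespace Pool.Agent.QX

private theorem DSQ_mvt (p : ℝ[X]) (a B : ℝ) (hb : ∀ x, 0 ≤ x → x ≤ a → |p.derivative.eval x| ≤ B)
    (x y : ℝ) (hx0 : 0 ≤ x) (hxa : x ≤ a) (hy0 : 0 ≤ y) (hya : y ≤ a) :
    |p.eval y - p.eval x| ≤ B * |y - x| := by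
  have h := Convex.norm_image_sub_le_of_norm_deriv_le (f := fun z => p.eval z) (C := B)
    (s := Set.Icc 0 a) (x := x) (y := y) (fun z _ => p.differentiable.differentiableAt)
    (fun z hz => by
      rw [Polynomial.deriv]
      exact hb z hz.1 hz.2) (convex_Icc 0 a) ⟨hx0, hxa⟩ ⟨hy0, hya⟩
  exact h

/-- **Row DSQ**: the points `1/N²`. -/
theorem DSQ : DSQ_stmt := by
  intro h1 p L H hL hp hb k x hx0 hx1
  obtain ⟨M, hM⟩ : ∃ M : ℕ, M = 16 * L ^ 2 := ⟨_, rfl⟩
  have hM16 : 16 ≤ M := by nlinarith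
  have hMpos : (0 : ℝ) < M := by exact_mod_cast (by omega : 0 < M)
  have hLpos : (1 : ℝ) ≤ L := by exact_mod_cast hL
  have hML : (M : ℝ) = 16 * (L : ℝ) ^ 2 := by rw [hM]; push_cast; ring
  have hxM : 1 / (256 * (L : ℝ) ^ 4) = 1 / (M : ℝ) ^ 2 := by
    rw [hML]
    congr 1
    ring
  rw [hxM] at hx1
  have hH : 0 ≤ H := by
    have := (abs_nonneg _).trans (hb 2 le_rfl)
    linarith
  have ha : (0 : ℝ) < 1 / (M : ℝ) ^ 2 := by positivity
  -- value at `0`
  have h0 : |p.eval 0| ≤ 2 * H := by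
    have t1 : Tendsto (fun n : ℕ => |p.eval (1 / (n : ℝ) ^ 2)|) atTop (nhds |p.eval 0|) := by
      have t3 : Tendsto (fun n : ℕ => 1 / (n : ℝ) ^ 2) atTop (nhds 0) := by
        have t4 := tendsto_one_div_atTop_nhds_zero_nat (𝕜 := ℝ)
        have t5 := t4.pow 2
        simp only [one_div, inv_pow, ne_eq, OfNat.ofNat_ne_zero, not_false_eq_true, zero_pow] at t5 ⊢
        exact t5
      have t2 : Tendsto (fun n : ℕ => p.eval (1 / (n : ℝ) ^ 2)) atTop (nhds (p.eval 0)) :=
        (p.continuous.tendsto 0).comp t3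
      exact t2.abs
    exact le_of_tendsto t1 (Filter.eventually_atTop.mpr ⟨2, fun n hn => hb n hn⟩)
  -- the maximum
  obtain ⟨y, hy, hmax⟩ := (isCompact_Icc (a := (0 : ℝ)) (b := 1 / (M : ℝ) ^ 2)).exists_isMaxOn
    ⟨0, le_rfl, ha.le⟩ (f := fun z => |p.eval z|) (by apply Continuous.continuousOn; fun_prop)
  have hmax' : ∀ z, 0 ≤ z → z ≤ 1 / (M : ℝ) ^ 2 → |p.eval z| ≤ |p.eval y| := by
    intro z hz0 hz1
    exact hmax ⟨hz0, hz1⟩
  have hS : |p.eval y| ≤ 4 * H := by
    rcases eq_or_lt_of_le hy.1 with h | h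
    · rw [← h]
      linarith
    · have hd := h1 p L (1 / (M : ℝ) ^ 2) |p.eval y| hp ha hmax'
      obtain ⟨s, hs⟩ : ∃ s : ℝ, s = Real.sqrt y := ⟨_, rfl⟩
      have hs0 : 0 < s := by rw [hs]; exact Real.sqrt_pos.mpr h
      have hs2 : s ^ 2 = y := by rw [hs]; exact Real.sq_sqrt h.le
      have hsM : s ≤ 1 / M := by
        rw [hs]
        apply Real.sqrt_le_iff.mpr
        refine ⟨by positivity, ?_⟩
        rw [div_pow, one_pow]
        exact hy.2
      obtain ⟨n, hn⟩ : ∃ n : ℕ, n = ⌊1 / s⌋₊ := ⟨_, rfl⟩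
      have hx1 : (M : ℝ) ≤ 1 / s := by
        rw [le_div_iff₀ hs0]
        rw [le_div_iff₀ hMpos] at hsM
        linarith
      have hnM : M ≤ n := by
        rw [hn]
        exact Nat.le_floor hx1
      have hnpos : (0 : ℝ) < n := by exact_mod_cast (by omega : 0 < n)
      have hnMr : (M : ℝ) ≤ n := by exact_mod_cast hnM
      have h2 : (n : ℝ) ≤ 1 / s := by
        rw [hn]
        exact Nat.floor_le (by positivity)
      have h3 : 1 / s < n + 1 := by
        rw [hn]
        exact Nat.lt_floor_add_one _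
      have h4 : s ≤ 1 / n := by
        rw [le_div_iff₀ hnpos]
        rw [le_div_iff₀ hs0] at h2
        linarith
      have h5 : 1 / ((n : ℝ) + 1) < s := by
        rw [div_lt_iff₀ (by positivity)]
        rw [div_lt_iff₀ hs0] at h3
        linarith
      have h4' : y ≤ 1 / (n : ℝ) ^ 2 := by
        rw [← hs2, ← one_pow 2, ← div_pow]
        exact pow_le_pow_left₀ hs0.le h4 2
      have h5' : 1 / ((n : ℝ) + 1) ^ 2 ≤ y := by
        have e := pow_le_pow_left₀ (by positivity) h5.le 2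
        rw [hs2, div_pow, one_pow] at e
        exact e
      have h6 : 1 / (n : ℝ) ^ 2 ≤ 1 / (M : ℝ) ^ 2 :=
        one_div_le_one_div_of_le (by positivity) (pow_le_pow_left₀ hMpos.le hnMr 2)
      have h7 : |y - 1 / (n : ℝ) ^ 2| ≤ 2 / (M : ℝ) ^ 3 := by
        rw [abs_sub_comm, abs_of_nonneg (by linarith)]
        have h8 : 1 / (n : ℝ) ^ 2 - 1 / ((n : ℝ) + 1) ^ 2 ≤ 2 / (n : ℝ) ^ 3 := by
          rw [div_sub_div _ _ (by positivity) (by positivity), div_le_div_iff₀ (by positivity)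
            (by positivity)]
          have e : 0 ≤ (n : ℝ) ^ 3 := by positivity
          nlinarith [pow_pos hnpos 2, pow_pos hnpos 3, pow_pos hnpos 4]
        have h9 : 2 / (n : ℝ) ^ 3 ≤ 2 / (M : ℝ) ^ 3 := by
          apply div_le_div_of_nonneg_left (by norm_num) (by positivity)
          exact pow_le_pow_left₀ hMpos.le hnMr 3
        linarith
      have h8 := DSQ_mvt p (1 / (M : ℝ) ^ 2) (4 * (L : ℝ) ^ 2 / (1 / (M : ℝ) ^ 2) * |p.eval y|) hd
        (1 / (n : ℝ) ^ 2) y (by positivity) h6 hy.1 hy.2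
      have h9 := hb n (by omega)
      have h10 : 4 * (L : ℝ) ^ 2 / (1 / (M : ℝ) ^ 2) * |p.eval y| * |y - 1 / (n : ℝ) ^ 2| ≤
          |p.eval y| / 2 := by
        have hc : 0 ≤ 4 * (L : ℝ) ^ 2 / (1 / (M : ℝ) ^ 2) * |p.eval y| := by positivity
        calc 4 * (L : ℝ) ^ 2 / (1 / (M : ℝ) ^ 2) * |p.eval y| * |y - 1 / (n : ℝ) ^ 2|
            ≤ 4 * (L : ℝ) ^ 2 / (1 / (M : ℝ) ^ 2) * |p.eval y| * (2 / (M : ℝ) ^ 3) :=
              mul_le_mul_of_nonneg_left h7 hc
          _ = (8 * (L : ℝ) ^ 2 / M) * |p.eval y| := by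
              field_simp
              ring
          _ = (1 / 2) * |p.eval y| := by
              have : 8 * (L : ℝ) ^ 2 / M = 1 / 2 := by
                rw [div_eq_iff hMpos.ne', hML]
                ring
              rw [this]
          _ = |p.eval y| / 2 := by ring
      have h11 : |p.eval y| ≤ |p.eval y - p.eval (1 / (n : ℝ) ^ 2)| + |p.eval (1 / (n : ℝ) ^ 2)| := by
        have := abs_add_le (p.eval y - p.eval (1 / (n : ℝ) ^ 2)) (p.eval (1 / (n : ℝ) ^ 2))
        rwa [sub_add_cancel] at this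
      linarith
  have hfin : ∀ k : ℕ, (derivative^[k] p).natDegree ≤ L ∧ ∀ x, 0 ≤ x → x ≤ 1 / (M : ℝ) ^ 2 →
      |(derivative^[k] p).eval x| ≤ (1024 * (L : ℝ) ^ 6) ^ k * (4 * H) := by
    intro k
    induction k with
    | zero =>
      refine ⟨hp, fun x hx hx' => ?_⟩
      rw [pow_zero, one_mul]
      exact (hmax' x hx hx').trans hS
    | succ k ih =>
      rw [Function.iterate_succ_apply']
      refine ⟨(natDegree_derivative_le _).trans (by have := ih.1; omega), fun x hx hx' => ?_⟩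
      have h2 := h1 (derivative^[k] p) L (1 / (M : ℝ) ^ 2) _ ih.1 ha ih.2 x hx hx'
      refine h2.trans (le_of_eq ?_)
      rw [pow_succ, hML]
      field_simp
      ring
  exact (hfin k).2 x hx0 hx1

end Pool.Agent.QX
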